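import Mathlib

/-!
# Counting vectors of natural numbers with a small sum
-/

set_option autoImplicit false

namespace Pool.Agent.L5helper37.GC

open Finset
open scoped Classical

/-- Rankin's trick -/
theorem count {ι : Type*} [Fintype ι] (W : Finset (ι → ℕ)) (Z t : ℝ) (ht : 0 < t)
    (hW : ∀ w ∈ W, (∑ i, (w i : ℝ)) ≤ Z) :
    (W.card : ℝ) ≤ Real.exp (t * Z) * (1 / (1 - Real.exp (-t))) ^ Fintype.card ι := by
  set x : ℝ := Real.exp (-t) with hx
  have hx0 : 0 < x := Real.exp_pos _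
  have hx1 : x < 1 := by
    rw [hx, Real.exp_lt_one_iff]
    linarith
  set B : ℕ := (W.sup fun w => ∑ i, w i) + 1 with hB
  have hmem : W ⊆ Fintype.piFinset fun _ : ι => range B := by
    intro w hw
    rw [Fintype.mem_piFinset]
    intro i
    rw [mem_range, hB]
    have h1 : w i ≤ ∑ i, w i := single_le_sum (f := fun i => w i) (fun _ _ => Nat.zero_le _)
      (mem_univ i)
    have h2 : (∑ i, w i) ≤ W.sup fun w => ∑ i, w i := le_sup (f := fun w : ι → ℕ => ∑ i, w i) hw
    omega
  have hgeo : ∑ j ∈ range B, x ^ j ≤ 1 / (1 - x) := by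
    rw [geom_sum_eq hx1.ne, ← neg_div_neg_eq, neg_sub, neg_sub]
    refine div_le_div_of_nonneg_right ?_ (by linarith)
    have : 0 < x ^ B := by positivity
    linarith
  have h1 : ∑ w ∈ W, ∏ i, x ^ w i ≤ (1 / (1 - x)) ^ Fintype.card ι := by
    calc ∑ w ∈ W, ∏ i, x ^ w i ≤ ∑ w ∈ Fintype.piFinset fun _ : ι => range B, ∏ i, x ^ w i :=
          sum_le_sum_of_subset_of_nonneg hmem fun w _ _ => by positivity
      _ = ∏ _i : ι, ∑ j ∈ range B, x ^ j := by
          rw [prod_univ_sum]
      _ ≤ ∏ _i : ι, (1 / (1 - x)) := prod_le_prod (fun _ _ => by positivity) fun _ _ => hgeo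
      _ = _ := by rw [prod_const, card_univ]
  calc (W.card : ℝ) = ∑ w ∈ W, (1 : ℝ) := by simp
    _ ≤ ∑ w ∈ W, Real.exp (t * Z) * ∏ i, x ^ w i := by
        refine sum_le_sum fun w hw => ?_
        have h2 : ∏ i, x ^ w i = Real.exp (-(t * ∑ i, (w i : ℝ))) := by
          rw [prod_pow_eq_pow_sum, hx, ← Real.exp_nat_mul]
          congr 1
          push_cast
          ring
        rw [h2, ← Real.exp_add, Real.one_le_exp_iff]
        have h3 := mul_le_mul_of_nonneg_left (hW w hw) ht.le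
        linarith
    _ = Real.exp (t * Z) * ∑ w ∈ W, ∏ i, x ^ w i := by rw [mul_sum]
    _ ≤ _ := mul_le_mul_of_nonneg_left h1 (by positivity)

end Pool.Agent.L5helper37.GC
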