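import Mathlib
import Pool.Agent.L5helper37.GC.Core
import Pool.Agent.L5helper37.GC.Count

/-!
# Product sets of sets whose elements are products of a small part and a part without popular primes
-/

set_option autoImplicit false

namespace Pool.Agent.L5helper37.GC

open Finset Pool.Agent.Y359.PE Pool.Agent.R849.SV
open scoped Classical

/-- the sum over a set of primes of the logarithms of the prime powers in `n` -/
lemma sum_fact_le_log (n : ℕ) (P : Finset ℕ) :
    ∑ p ∈ P, (n.factorization p : ℝ) * Real.log p ≤ Real.log n := by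
  rw [Real.log_nat_eq_sum_factorization, Finsupp.sum]
  have h1 : ∑ p ∈ P, (n.factorization p : ℝ) * Real.log p =
      ∑ p ∈ P.filter (fun p => p ∈ n.factorization.support),
        (n.factorization p : ℝ) * Real.log p := by
    rw [sum_filter]
    refine sum_congr rfl fun p _ => ?_
    split_ifs with h
    · rfl
    · rw [Finsupp.notMem_support_iff.1 h]
      simp
  rw [h1]
  refine sum_le_sum_of_subset_of_nonneg ?_ ?_
  · intro p hp
    exact (mem_filter.1 hp).2
  · intro p hp _
    have : 1 ≤ p := by
      rw [Nat.support_factorization] at hp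
      exact (Nat.prime_of_mem_primeFactors hp).one_le
    have h2 : (1 : ℝ) ≤ p := by exact_mod_cast this
    exact mul_nonneg (Nat.cast_nonneg _) (Real.log_nonneg h2)

/-- the popular primes of the small parts -/
noncomputable def Pop (A : Finset ℤ) (g : ℤ → ℕ) (m : ℕ) (δ : ℝ) : Finset ℕ :=
  (pr A).filter fun p => δ * A.card < ((A.filter fun a => m ≤ p ^ (g a).factorization p).card : ℝ)

lemma card_Pop {A : Finset ℤ} {g : ℤ → ℕ} {m : ℕ} (hm : 2 ≤ m) {δ : ℝ} {C : ℝ}
    (hg : ∑ a ∈ A, Real.log (g a) ≤ C * A.card * Real.log A.card) (hA : A.Nonempty) :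
    ((Pop A g m δ).card : ℝ) * (δ * Real.log m) ≤ C * Real.log A.card := by
  have hN : (0 : ℝ) < A.card := by exact_mod_cast card_pos.2 hA
  have hm' : 0 < Real.log m := Real.log_pos (by exact_mod_cast (by omega : 1 < m))
  have h1 : ∀ p ∈ Pop A g m δ, δ * A.card * Real.log m ≤
      ∑ a ∈ A, ((g a).factorization p : ℝ) * Real.log p := by
    intro p hp
    unfold Pop at hp
    rw [mem_filter] at hp
    have hpp := prime_of_mem_pr hp.1
    have hp1 : (1 : ℝ) ≤ p := by exact_mod_cast hpp.one_le
    calc δ * A.card * Real.log m ≤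
        ((A.filter fun a => m ≤ p ^ (g a).factorization p).card : ℝ) * Real.log m :=
          mul_le_mul_of_nonneg_right hp.2.le hm'.le
      _ = ∑ a ∈ A.filter fun a => m ≤ p ^ (g a).factorization p, Real.log m := by
          rw [sum_const, nsmul_eq_mul]
      _ ≤ ∑ a ∈ A.filter fun a => m ≤ p ^ (g a).factorization p,
          ((g a).factorization p : ℝ) * Real.log p := by
          refine sum_le_sum fun a ha => ?_
          rw [mem_filter] at ha
          rw [← Real.log_pow]
          refine Real.log_le_log (by exact_mod_cast (by omega : 0 < m)) ?_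
          exact_mod_cast ha.2
      _ ≤ _ := sum_le_sum_of_subset_of_nonneg (filter_subset _ _) fun a _ _ =>
          mul_nonneg (Nat.cast_nonneg _) (Real.log_nonneg hp1)
  have h2 := sum_le_sum h1
  rw [sum_const, nsmul_eq_mul, sum_comm] at h2
  have h3 : ∑ a ∈ A, ∑ p ∈ Pop A g m δ, ((g a).factorization p : ℝ) * Real.log p ≤
      ∑ a ∈ A, Real.log (g a) := sum_le_sum fun a _ => sum_fact_le_log _ _
  have h4 := h2.trans (h3.trans hg)
  have h5 : ((Pop A g m δ).card : ℝ) * (δ * Real.log m) * A.card ≤ C * Real.log A.card * A.card := by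
    linarith
  exact le_of_mul_le_mul_right h5 hN

/-- the light parts -/
noncomputable def ltp (P : Finset ℕ) (g : ℤ → ℕ) (a : ℤ) (p : ℕ) : ℤ :=
  if p ∈ P then ((g a).factorization p : ℤ) else 0

/-- the number of the vectors of the light parts -/
lemma card_lights (P : Finset ℕ) (hP : ∀ p ∈ P, p.Prime) (g : ℤ → ℕ) (A : Finset ℤ) (Z t : ℝ)
    (ht : 0 < t) (hZ : ∀ a ∈ A, Real.log (g a) ≤ Z * Real.log 2) :
    ((lights (ltp P g) A).card : ℝ) ≤ Real.exp (t * Z) * (1 / (1 - Real.exp (-t))) ^ P.card := by
  have hl2 : 0 < Real.log 2 := Real.log_pos (by norm_num)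
  set W : Finset (P → ℕ) := (lights (ltp P g) A).image fun v => fun i : P => (v i).toNat with hW
  have h1 : (lights (ltp P g) A).card = W.card := by
    rw [hW, card_image_of_injOn]
    intro v hv w hw hvw
    rw [mem_coe] at hv hw
    unfold lights at hv hw
    obtain ⟨a, ha, rfl⟩ := mem_image.1 hv
    obtain ⟨b, hb, rfl⟩ := mem_image.1 hw
    funext p
    by_cases hp : p ∈ pr A
    · by_cases hp2 : p ∈ P
      · have := congrFun hvw ⟨p, hp2⟩
        simp only [ltp, hp, hp2, if_true, Int.toNat_natCast] at this ⊢
        exact_mod_cast this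
      · simp [ltp, hp2]
    · simp [hp]
  rw [h1]
  have h2 := count W Z t ht (by
    intro w hw
    rw [hW, mem_image] at hw
    obtain ⟨v, hv, rfl⟩ := hw
    unfold lights at hv
    obtain ⟨a, ha, rfl⟩ := mem_image.1 hv
    have h3 : ∀ i : P, (((fun p => if p ∈ pr A then ltp P g a p else 0) (i : ℕ) : ℤ).toNat : ℝ) *
        Real.log 2 ≤ ((g a).factorization i : ℝ) * Real.log (i : ℕ) := by
      intro i
      have hi2 : (2 : ℝ) ≤ (i : ℕ) := by exact_mod_cast (hP i i.2).two_le
      have hlog : Real.log 2 ≤ Real.log (i : ℕ) := Real.log_le_log (by norm_num) hi2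
      have h4 : ((((fun p => if p ∈ pr A then ltp P g a p else 0) (i : ℕ) : ℤ)).toNat : ℝ) ≤
          ((g a).factorization i : ℝ) := by
        dsimp only
        split_ifs with h5
        · unfold ltp
          rw [if_pos i.2, Int.toNat_natCast]
        · simp
      have h5 : (0 : ℝ) ≤ ((g a).factorization i : ℝ) := Nat.cast_nonneg _
      calc _ ≤ ((g a).factorization i : ℝ) * Real.log 2 := mul_le_mul_of_nonneg_right h4 hl2.le
        _ ≤ _ := mul_le_mul_of_nonneg_left hlog h5
    have h6 := sum_le_sum fun i (_ : i ∈ (univ : Finset P)) => h3 i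
    rw [← sum_mul] at h6
    have h7 : ∑ i : P, ((g a).factorization i : ℝ) * Real.log (i : ℕ) =
        ∑ p ∈ P, ((g a).factorization p : ℝ) * Real.log p :=
      sum_coe_sort P (fun p => ((g a).factorization p : ℝ) * Real.log p)
    rw [h7] at h6
    have h8 := h6.trans ((sum_fact_le_log (g a) P).trans (hZ a ha))
    exact le_of_mul_le_mul_right h8 hl2)
  rwa [Fintype.card_coe] at h2

/-- **Small parts.** -/
theorem small (k : ℕ) (hk : 1 ≤ k) (ε : ℝ) (hε : 0 < ε) (hε1 : ε ≤ 1) :
    ∃ τ : ℝ, 0 < τ ∧ τ ≤ 1 ∧ ∀ C : ℝ, ∃ c : ℝ, 0 < c ∧ ∀ A : Finset ℤ, A.Nonempty → (0 : ℤ) ∉ A →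
      ∀ g : ℤ → ℕ, (∀ a ∈ A, g a ≠ 0) →
      (∑ a ∈ A, Real.log (g a) ≤ C * A.card * Real.log A.card) →
      (∀ p : ℕ, p.Prime →
        ((A.filter fun a => fa a p ≠ (g a).factorization p).card : ℝ) ≤ τ * A.card) →
      c * (A.card : ℝ) ^ ((k : ℝ) - ε) ≤ (pk k A).card := by
  have hkr : (1 : ℝ) ≤ k := by exact_mod_cast hk
  have hk0 : (0 : ℝ) < k := by linarith
  set γ : ℝ := ε / (2 * k) with hγ
  have hγ0 : 0 < γ := by positivity
  have hγ1 : γ ≤ 1 := by
    rw [hγ, div_le_one (by linarith)]
    linarith
  set u : ℝ := k * (4 + k) / γ with hu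
  have hu0 : 0 ≤ u := by positivity
  set L : ℝ := Real.exp (6 + u) with hL
  have hlog : Real.log L = 6 + u := by rw [hL, Real.log_exp]
  have hL1 : 1 < L := by
    rw [hL]
    exact Real.one_lt_exp_iff.2 (by linarith)
  have hL0 : 0 < L := by linarith
  set ε₁ : ℝ := ε / (4 * k) with hε₁
  have hε₁0 : 0 < ε₁ := by positivity
  set δ₀ : ℝ := 1 / (4 * L) with hδ₀
  have hδ₀0 : 0 < δ₀ := by positivity
  refine ⟨δ₀, hδ₀0, ?_, fun C' => ?_⟩
  · rw [hδ₀, div_le_one (by positivity)]
    linarith
  set C : ℝ := max C' 1 with hC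
  have hC1 : 1 ≤ C := le_max_right _ _
  have hC0 : 0 < C := by linarith
  have hl2 : 0 < Real.log 2 := Real.log_pos (by norm_num)
  -- the parameters of the counting
  set t : ℝ := ε₁ * Real.log 2 / (4 * C) with ht
  have ht0 : 0 < t := by positivity
  set b : ℝ := Real.log (1 / (1 - Real.exp (-t))) with hb
  have hexp1 : Real.exp (-t) < 1 := by
    rw [Real.exp_lt_one_iff]
    linarith
  have hexp0 : 0 < Real.exp (-t) := Real.exp_pos _
  have hb0 : 0 < b := by
    rw [hb]
    refine Real.log_pos ?_
    rw [lt_div_iff₀ (by linarith)]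
    linarith
  set η : ℝ := ε₁ / (2 * b) with hη
  have hη0 : 0 < η := by positivity
  set m : ℕ := ⌈Real.exp (C / (δ₀ * η))⌉₊ + 2 with hm
  have hm2 : 2 ≤ m := by omega
  have hmlog : C / (δ₀ * η) ≤ Real.log m := by
    have h1 : Real.exp (C / (δ₀ * η)) ≤ m := by
      rw [hm]
      push_cast
      have := Nat.le_ceil (Real.exp (C / (δ₀ * η)))
      linarith
    have h2 := Real.log_le_log (Real.exp_pos _) h1
    rwa [Real.log_exp] at h2
  set F0 : ℝ := 2 * (2 * m + 1) ^ m with hF0
  set F1 : ℝ := (2 * (k * m) + 1) ^ m with hF1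
  have hm0 : (0 : ℝ) ≤ m := Nat.cast_nonneg _
  have hF00 : 1 ≤ F0 := by
    have : (1 : ℝ) ≤ (2 * m + 1) ^ m := one_le_pow₀ (by linarith)
    rw [hF0]
    linarith
  have hF10 : 1 ≤ F1 := one_le_pow₀ (by nlinarith)
  refine ⟨Real.exp (-(k * (Real.log 2 + Real.log F0) + Real.log F1)), Real.exp_pos _,
    fun A hA h0 g hg0 hg hp => ?_⟩
  have hNn : 1 ≤ A.card := card_pos.2 hA
  have hN1 : (1 : ℝ) ≤ A.card := by exact_mod_cast hNn
  have hN0 : (0 : ℝ) < A.card := by linarith
  have hlN : 0 ≤ Real.log A.card := Real.log_nonneg hN1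
  have hPk : (0 : ℝ) < (pk k A).card := by exact_mod_cast card_pos.2 (pk_nonempty hA)
  have hlF0 : 0 ≤ Real.log F0 := Real.log_nonneg hF00
  have hlF1 : 0 ≤ Real.log F1 := Real.log_nonneg hF10
  have hgC : ∑ a ∈ A, Real.log (g a) ≤ C * A.card * Real.log A.card := by
    refine hg.trans ?_
    have : C' ≤ C := le_max_left _ _
    gcongr
  have hglog : ∀ a, 0 ≤ Real.log (g a : ℝ) := fun a => Real.log_natCast_nonneg _
  -- the elements whose small part is not too large
  set A' := A.filter fun a => Real.log (g a) ≤ 2 * C * Real.log A.card with hA'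
  have hA'c : (A.card : ℝ) ≤ 2 * A'.card := by
    by_contra hcon
    push Not at hcon
    have h1 : ((A.filter fun a => ¬ (Real.log (g a) ≤ 2 * C * Real.log A.card)).card : ℝ) =
        A.card - A'.card := by
      have := card_filter_add_card_filter_not (s := A)
        (fun a => Real.log (g a) ≤ 2 * C * Real.log A.card)
      rw [← hA'] at this
      have h2 : ((A'.card + (A.filter fun a => ¬ (Real.log (g a) ≤
        2 * C * Real.log A.card)).card : ℕ) : ℝ) = A.card := by
        rw [this]
      push_cast at h2
      linarith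
    have h2 : ((A.filter fun a => ¬ (Real.log (g a) ≤ 2 * C * Real.log A.card)).card : ℝ) *
        (2 * C * Real.log A.card) ≤ ∑ a ∈ A, Real.log (g a) := by
      rw [← nsmul_eq_mul, ← sum_const]
      refine (sum_le_sum fun a ha => ?_).trans
        (sum_le_sum_of_subset_of_nonneg (filter_subset _ _) fun a _ _ => hglog a)
      exact (not_le.1 (mem_filter.1 ha).2).le
    rw [h1] at h2
    rcases hlN.eq_or_lt with h3 | h3
    · -- the set has one element
      have h4 : A' = A := by
        rw [hA', filter_eq_self]
        intro a ha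
        rw [← h3, mul_zero]
        rw [← h3, mul_zero] at hgC
        have h5 := single_le_sum (f := fun a => Real.log (g a : ℝ)) (fun a _ => hglog a) ha
        exact h5.trans hgC
      rw [h4] at hcon
      linarith
    · have h4 : (A.card : ℝ) < (A.card - A'.card) * 2 := by linarith
      have h5 : C * Real.log A.card * A.card < C * Real.log A.card * ((A.card - A'.card) * 2) :=
        mul_lt_mul_of_pos_left h4 (by positivity)
      linarith
  have hA'n : A'.Nonempty := by
    rw [← card_pos]
    by_contra hcon
    have : A'.card = 0 := by omega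
    rw [this] at hA'c
    push_cast at hA'c
    linarith
  have hA'0 : (0 : ℤ) ∉ A' := fun h => h0 (mem_filter.1 h).1
  set P := Pop A g m δ₀ with hPd
  have hPp : ∀ p ∈ P, p.Prime := fun p hp => by
    rw [hPd] at hp
    unfold Pop at hp
    exact prime_of_mem_pr (mem_filter.1 hp).1
  have hcardP : (P.card : ℝ) ≤ η * Real.log A.card := by
    have h1 := card_Pop (A := A) (g := g) (δ := δ₀) hm2 hgC hA
    have h2 : C ≤ δ₀ * Real.log m * η := by
      rw [div_le_iff₀ (by positivity)] at hmlog
      linarith
    have hlm : 0 < Real.log m := Real.log_pos (by exact_mod_cast (by omega : 1 < m))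
    have h3 : (P.card : ℝ) * (δ₀ * Real.log m) ≤ η * Real.log A.card * (δ₀ * Real.log m) := by
      refine h1.trans ?_
      have := mul_le_mul_of_nonneg_right h2 hlN
      linarith
    exact le_of_mul_le_mul_right h3 (by positivity)
  -- the number of the light vectors
  have hLam : Real.log (lights (ltp P g) A').card ≤ ε₁ * Real.log A.card := by
    have hpos : (0 : ℝ) < (lights (ltp P g) A').card := by
      exact_mod_cast card_pos.2 (lights_nonempty _ hA'n)
    have h1 := card_lights P hPp g A' (2 * C * Real.log A.card / Real.log 2) t ht0 (by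
      intro a ha
      rw [div_mul_cancel₀ _ hl2.ne']
      exact (mem_filter.1 ha).2)
    have h2 := Real.log_le_log hpos h1
    have hq : 0 < 1 / (1 - Real.exp (-t)) := by
      have : 0 < 1 - Real.exp (-t) := by linarith
      positivity
    rw [Real.log_mul (Real.exp_pos _).ne' (pow_pos hq _).ne', Real.log_exp, Real.log_pow, ← hb] at h2
    have h3 : t * (2 * C * Real.log A.card / Real.log 2) = ε₁ / 2 * Real.log A.card := by
      rw [ht]
      field_simp
      ring
    have h4 : (P.card : ℝ) * b ≤ ε₁ / 2 * Real.log A.card := by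
      have h5 := mul_le_mul_of_nonneg_right hcardP hb0.le
      have h6 : η * Real.log A.card * b = ε₁ / 2 * Real.log A.card := by
        rw [hη]
        field_simp
      linarith
    rw [h3] at h2
    linarith
  -- the main inequality
  have main := core A' hA'n hA'0 (ltp P g) m k hk hL1 (by rw [hlog]; linarith) hγ1 (by
    rw [hlog, div_le_iff₀ (by linarith)]
    have h2 : k * (4 + k) = γ * u := by
      rw [hu]
      field_simp
    rw [h2]
    nlinarith) (fun p hpp => by
      have h1 : ((A'.filter fun a => m ≤ p ^ ((fa a p : ℤ) - ltp P g a p).natAbs).card : ℝ) ≤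
          (δ₀ + δ₀) * A.card := by
        by_cases hpP : p ∈ P
        · have h2 : (A'.filter fun a => m ≤ p ^ ((fa a p : ℤ) - ltp P g a p).natAbs) ⊆
              A.filter fun a => fa a p ≠ (g a).factorization p := by
            intro a ha
            rw [mem_filter] at ha ⊢
            refine ⟨(mem_filter.1 ha.1).1, fun h => ?_⟩
            have h3 := ha.2
            unfold ltp at h3
            rw [if_pos hpP, h, sub_self, Int.natAbs_zero, pow_zero] at h3
            omega
          have h3 : ((A'.filter fun a => m ≤ p ^ ((fa a p : ℤ) - ltp P g a p).natAbs).card : ℝ) ≤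
              ((A.filter fun a => fa a p ≠ (g a).factorization p).card : ℝ) := by
            exact_mod_cast card_le_card h2
          have h4 := hp p hpp
          have : 0 ≤ δ₀ * A.card := by positivity
          linarith
        · by_cases hpA : p ∈ pr A
          · have h2 : (A'.filter fun a => m ≤ p ^ ((fa a p : ℤ) - ltp P g a p).natAbs) ⊆
                (A.filter fun a => fa a p ≠ (g a).factorization p) ∪
                (A.filter fun a => m ≤ p ^ (g a).factorization p) := by
              intro a ha
              rw [mem_filter] at ha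
              rw [mem_union, mem_filter, mem_filter]
              by_cases h : fa a p = (g a).factorization p
              · right
                refine ⟨(mem_filter.1 ha.1).1, ?_⟩
                have h3 := ha.2
                unfold ltp at h3
                rw [if_neg hpP, h, sub_zero, Int.natAbs_natCast] at h3
                exact h3
              · left
                exact ⟨(mem_filter.1 ha.1).1, h⟩
            have h3 : ((A'.filter fun a =>
                m ≤ p ^ ((fa a p : ℤ) - ltp P g a p).natAbs).card : ℝ) ≤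
                ((A.filter fun a => fa a p ≠ (g a).factorization p).card : ℝ) +
                ((A.filter fun a => m ≤ p ^ (g a).factorization p).card : ℝ) := by
              exact_mod_cast (card_le_card h2).trans (card_union_le _ _)
            have h4 := hp p hpp
            have h5 : ((A.filter fun a => m ≤ p ^ (g a).factorization p).card : ℝ) ≤
                δ₀ * A.card := by
              by_contra hcon
              push Not at hcon
              exact hpP (by
                rw [hPd]
                unfold Pop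
                exact mem_filter.2 ⟨hpA, hcon⟩)
            linarith
          · have h2 : (A'.filter fun a => m ≤ p ^ ((fa a p : ℤ) - ltp P g a p).natAbs) = ∅ := by
              rw [filter_eq_empty_iff]
              intro a ha h3
              unfold ltp at h3
              rw [if_neg hpP, fa_eq_zero (mem_filter.1 ha).1 hpA] at h3
              simp at h3
              omega
            rw [h2, card_empty, Nat.cast_zero]
            positivity
      have h6 : L * ((δ₀ + δ₀) * A.card) = A.card / 2 := by
        rw [hδ₀]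
        field_simp
        ring
      have h7 := mul_le_mul_of_nonneg_left h1 hL0.le
      linarith)
  have hA'0' : (0 : ℝ) < A'.card := by exact_mod_cast card_pos.2 hA'n
  have hPk' : (0 : ℝ) < (pk k A').card := by exact_mod_cast card_pos.2 (pk_nonempty hA'n)
  have hLpos : (0 : ℝ) < (lights (ltp P g) A').card := by
    exact_mod_cast card_pos.2 (lights_nonempty _ hA'n)
  have e0 : Real.log (2 * (2 * m + 1) ^ m * (lights (ltp P g) A').card) =
      Real.log F0 + Real.log (lights (ltp P g) A').card := by
    rw [← hF0, Real.log_mul (by positivity) hLpos.ne']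
  have e1 : Real.log ((pk k A').card * (2 * (k * m) + 1) ^ m * (lights (ltp P g) A').card ^ k) =
      Real.log (pk k A').card + Real.log F1 + k * Real.log (lights (ltp P g) A').card := by
    have e2 : Real.log (((lights (ltp P g) A').card : ℝ) ^ k) =
        k * Real.log (lights (ltp P g) A').card := Real.log_pow _ _
    have e3 : (0 : ℝ) < ((lights (ltp P g) A').card : ℝ) ^ k := pow_pos hLpos _
    have e4 : (0 : ℝ) < F1 := by linarith
    rw [← hF1, Real.log_mul (mul_pos hPk' e4).ne' e3.ne', Real.log_mul hPk'.ne' e4.ne', e2]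
  rw [e0, e1] at main
  set lam := Real.log (lights (ltp P g) A').card with hlam
  have hlam0 : 0 ≤ lam := Real.log_natCast_nonneg _
  have hlA' : Real.log A.card - Real.log 2 ≤ Real.log A'.card := by
    rw [← Real.log_div hN0.ne' (by norm_num)]
    refine Real.log_le_log (by positivity) ?_
    linarith
  have hmono : Real.log (pk k A').card ≤ Real.log (pk k A).card := by
    refine Real.log_le_log hPk' ?_
    exact_mod_cast card_le_card (pk_mono (filter_subset _ _))
  set Y := Real.log A.card with hY
  have s1 : (1 - γ) * k * (Y - Real.log 2 - (Real.log F0 + ε₁ * Y)) ≤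
      (1 - γ) * k * (Real.log A'.card - (Real.log F0 + lam)) := by
    refine mul_le_mul_of_nonneg_left ?_ (mul_nonneg (by linarith) hk0.le)
    linarith
  have s2 : (k : ℝ) * (1 - γ - ε₁) * Y - k * (Real.log 2 + Real.log F0) ≤
      (1 - γ) * k * (Y - Real.log 2 - (Real.log F0 + ε₁ * Y)) := by
    have h1 : (1 - γ) * k * (Y - Real.log 2 - (Real.log F0 + ε₁ * Y)) -
        ((k : ℝ) * (1 - γ - ε₁) * Y - k * (Real.log 2 + Real.log F0)) =
        k * (γ * ε₁ * Y + γ * (Real.log 2 + Real.log F0)) := by ring
    have h2 : 0 ≤ k * (γ * ε₁ * Y + γ * (Real.log 2 + Real.log F0)) := by positivity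
    linarith
  have s3 : (k : ℝ) * lam ≤ k * (ε₁ * Y) := mul_le_mul_of_nonneg_left hLam hk0.le
  have s4 : (k : ℝ) * (1 - γ - ε₁) * Y - k * (ε₁ * Y) = ((k : ℝ) - ε) * Y := by
    have e2 : (k : ℝ) * γ = ε / 2 := by rw [hγ]; field_simp
    have e3 : (k : ℝ) * ε₁ = ε / 4 := by rw [hε₁]; field_simp
    calc (k : ℝ) * (1 - γ - ε₁) * Y - k * (ε₁ * Y) = (k - k * γ - 2 * (k * ε₁)) * Y := by ring
      _ = _ := by rw [e2, e3]; ring
  rw [← Real.log_le_log_iff (by positivity) hPk, Real.log_mul (Real.exp_pos _).ne' (by positivity),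
    Real.log_exp, Real.log_rpow hN0]
  linarith

end Pool.Agent.L5helper37.GC
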