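import Mathlib
import Pool.Agent.L5helper37.GC.Small

/-!
# The small part of the elements of a class whose tuples mostly have a small common divisor
-/

set_option autoImplicit false

namespace Pool.Agent.L5helper37.GC

open Finset Pool.Agent.Y359.PE Pool.Agent.R849.SV
open scoped Classical

/-- the number of the elements divisible by `p ^ s` -/
noncomputable def cnt (C : Finset ℤ) (p s : ℕ) : ℕ := (C.filter fun a => s ≤ fa a p).card

lemma cnt_anti (C : Finset ℤ) (p : ℕ) {s s' : ℕ} (h : s ≤ s') : cnt C p s' ≤ cnt C p s := by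
  refine card_le_card fun a ha => ?_
  rw [mem_filter] at ha ⊢
  exact ⟨ha.1, h.trans ha.2⟩

lemma cnt_zero (C : Finset ℤ) (p : ℕ) : cnt C p 0 = C.card := by
  unfold cnt
  rw [filter_true_of_mem fun a _ => Nat.zero_le _]

/-- a bound for the valuations -/
noncomputable def Kb (C : Finset ℤ) : ℕ := C.sup fun a => a.natAbs

lemma fa_lt {C : Finset ℤ} {a : ℤ} (ha : a ∈ C) (h0 : a ≠ 0) (p : ℕ) : fa a p ≤ Kb C := by
  have h1 : fa a p < a.natAbs := by
    unfold fa
    exact Nat.factorization_lt _ (Int.natAbs_ne_zero.2 h0)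
  have h2 : a.natAbs ≤ Kb C := le_sup (f := fun a : ℤ => a.natAbs) ha
  omega

/-- the last frequent exponent -/
noncomputable def sp (C : Finset ℤ) (τ : ℝ) (p : ℕ) : ℕ :=
  Nat.findGreatest (fun s => τ * C.card ≤ (cnt C p s : ℝ)) (Kb C)

lemma sp_spec {C : Finset ℤ} {τ : ℝ} (hτ : τ ≤ 1) (p : ℕ) :
    τ * C.card ≤ (cnt C p (sp C τ p) : ℝ) := by
  unfold sp
  refine Nat.findGreatest_spec (P := fun s => τ * C.card ≤ (cnt C p s : ℝ)) (Nat.zero_le _) ?_
  rw [cnt_zero]
  have : (0 : ℝ) ≤ C.card := Nat.cast_nonneg _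
  nlinarith

lemma cnt_ge {C : Finset ℤ} {τ : ℝ} (hτ : τ ≤ 1) {p s : ℕ} (hs : s ≤ sp C τ p) :
    τ * C.card ≤ (cnt C p s : ℝ) := by
  refine (sp_spec hτ p).trans ?_
  exact_mod_cast cnt_anti C p hs

lemma cnt_succ {C : Finset ℤ} {τ : ℝ} (hτ0 : 0 < τ) (h0 : (0 : ℤ) ∉ C) (p : ℕ) :
    ((C.filter fun a => fa a p ≠ min (fa a p) (sp C τ p)).card : ℝ) ≤ τ * C.card := by
  have h1 : (C.filter fun a => fa a p ≠ min (fa a p) (sp C τ p)) ⊆
      C.filter fun a => sp C τ p + 1 ≤ fa a p := by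
    intro a ha
    rw [mem_filter] at ha ⊢
    refine ⟨ha.1, ?_⟩
    have := ha.2
    by_contra h
    exact this (by rw [min_eq_left (by omega)])
  have h2 : ((C.filter fun a => fa a p ≠ min (fa a p) (sp C τ p)).card : ℝ) ≤
      (cnt C p (sp C τ p + 1) : ℝ) := by exact_mod_cast card_le_card h1
  refine h2.trans ?_
  rcases le_or_gt (sp C τ p + 1) (Kb C) with h | h
  · have h3 := Nat.findGreatest_is_greatest (P := fun s => τ * C.card ≤ (cnt C p s : ℝ))
      (n := Kb C) (k := sp C τ p + 1) (Nat.lt_succ_self _) h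
    exact (not_le.1 h3).le
  · have h3 : cnt C p (sp C τ p + 1) = 0 := by
      unfold cnt
      rw [card_eq_zero, filter_eq_empty_iff]
      intro a ha h4
      have := fa_lt ha (fun h => h0 (h ▸ ha)) p
      omega
    rw [h3, Nat.cast_zero]
    positivity

/-- the greatest common divisor of a tuple -/
noncomputable def tg {r : ℕ} (f : Fin r → ℤ) : ℕ := univ.gcd fun i => (f i).natAbs

lemma tg_ne_zero {r : ℕ} (hr : 1 ≤ r) {f : Fin r → ℤ} (hf : ∀ i, f i ≠ 0) : tg f ≠ 0 := by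
  unfold tg
  intro h
  rw [Finset.gcd_eq_zero_iff] at h
  exact hf ⟨0, hr⟩ (Int.natAbs_eq_zero.1 (h ⟨0, hr⟩ (mem_univ _)))

lemma le_fact_tg {r : ℕ} (hr : 1 ≤ r) {f : Fin r → ℤ} (hf : ∀ i, f i ≠ 0) {p : ℕ} (hp : p.Prime)
    {s : ℕ} (h : ∀ i, s ≤ fa (f i) p) : s ≤ (tg f).factorization p := by
  rw [← hp.pow_dvd_iff_le_factorization (tg_ne_zero hr hf)]
  unfold tg
  refine Finset.dvd_gcd fun i _ => ?_
  rw [hp.pow_dvd_iff_le_factorization (Int.natAbs_ne_zero.2 (hf i))]
  exact h i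

/-- the tuples of a class -/
noncomputable def tu (r : ℕ) (C : Finset ℤ) : Finset (Fin r → ℤ) := Fintype.piFinset fun _ => C

/-- the tuples with a large common divisor -/
noncomputable def bad (r : ℕ) (C : Finset ℤ) (G : ℝ) : Finset (Fin r → ℤ) :=
  (tu r C).filter fun f => G < (tg f : ℝ)

/-- **The main count.** -/
lemma class_count {r : ℕ} (hr : 1 ≤ r) {C : Finset ℤ} (h0 : (0 : ℤ) ∉ C) (hC : C.Nonempty)
    {G τ : ℝ} (hG : 1 ≤ G) (hτ0 : 0 < τ) (hτ1 : τ ≤ 1)
    (hbad : ((bad r C G).card : ℝ) ≤ τ ^ r / 2 * (C.card : ℝ) ^ r) (T : Finset ℕ)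
    (hT : ∀ p ∈ T, p.Prime) :
    ∑ a ∈ C, ∑ p ∈ T, (min (fa a p) (sp C τ p) : ℝ) * Real.log p ≤
      2 / τ ^ (r - 1) * C.card * Real.log G := by
  have hn : (0 : ℝ) < C.card := by exact_mod_cast card_pos.2 hC
  set n : ℝ := (C.card : ℝ) with hnd
  have hlG : 0 ≤ Real.log G := Real.log_nonneg hG
  -- the number of the good tuples divisible by `p ^ s`
  have hgood : ∀ p, ∀ s, s ≤ sp C τ p → (cnt C p s : ℝ) * (τ * n) ^ (r - 1) ≤
      2 * (((tu r C).filter fun f => ¬ (G < (tg f : ℝ)) ∧ ∀ i, s ≤ fa (f i) p).card : ℝ) := by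
    intro p s hs
    have h1 := cnt_ge hτ1 hs
    have h2 : (cnt C p s : ℝ) * (τ * n) ^ (r - 1) ≤ (cnt C p s : ℝ) ^ r := by
      obtain ⟨r', rfl⟩ : ∃ r', r = r' + 1 := ⟨r - 1, by omega⟩
      rw [Nat.add_sub_cancel, pow_succ, mul_comm]
      exact mul_le_mul_of_nonneg_right (pow_le_pow_left₀ (by positivity) h1 _) (by positivity)
    have h3 : (cnt C p s) ^ r ≤ ((tu r C).filter fun f => ¬ (G < (tg f : ℝ)) ∧
        ∀ i, s ≤ fa (f i) p).card + (bad r C G).card := by
      have h4 : (cnt C p s) ^ r = (tu r (C.filter fun a => s ≤ fa a p)).card := by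
        unfold tu
        rw [Fintype.card_piFinset, prod_const, card_univ, Fintype.card_fin]
        rfl
      rw [h4]
      refine (card_le_card ?_).trans (card_union_le _ _)
      intro f hf
      unfold tu at hf
      rw [Fintype.mem_piFinset] at hf
      have hf1 : f ∈ tu r C := Fintype.mem_piFinset.2 fun i => (mem_filter.1 (hf i)).1
      have hf2 : ∀ i, s ≤ fa (f i) p := fun i => (mem_filter.1 (hf i)).2
      rw [mem_union]
      unfold bad
      rw [mem_filter, mem_filter]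
      by_cases h5 : G < (tg f : ℝ)
      · exact Or.inr ⟨hf1, h5⟩
      · exact Or.inl ⟨hf1, h5, hf2⟩
    have h5 : ((cnt C p s : ℝ)) ^ r ≤ (((tu r C).filter fun f => ¬ (G < (tg f : ℝ)) ∧
        ∀ i, s ≤ fa (f i) p).card : ℝ) + (bad r C G).card := by exact_mod_cast h3
    have h6 : τ ^ r * n ^ r ≤ (cnt C p s : ℝ) ^ r := by
      rw [← mul_pow]
      exact pow_le_pow_left₀ (by positivity) h1 _
    linarith
  -- the minimum as a sum
  have hmin : ∀ a p, ((min (fa a p) (sp C τ p) : ℕ) : ℝ) =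
      ∑ s ∈ Icc 1 (sp C τ p), if s ≤ fa a p then (1 : ℝ) else 0 := by
    intro a p
    rw [← sum_filter, sum_const, nsmul_eq_mul, mul_one]
    congr 1
    have : (Icc 1 (sp C τ p)).filter (fun s => s ≤ fa a p) = Icc 1 (min (fa a p) (sp C τ p)) := by
      ext s
      rw [mem_filter, mem_Icc, mem_Icc]
      omega
    rw [this, Nat.card_Icc]
    omega
  have hsum1 : ∑ a ∈ C, ∑ p ∈ T, (min (fa a p) (sp C τ p) : ℝ) * Real.log p =
      ∑ p ∈ T, ∑ s ∈ Icc 1 (sp C τ p), (cnt C p s : ℝ) * Real.log p := by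
    rw [sum_comm]
    refine sum_congr rfl fun p _ => ?_
    rw [← sum_mul, ← sum_mul]
    congr 1
    have h1 : ∀ a ∈ C, (min (fa a p : ℝ) (sp C τ p)) =
        ∑ s ∈ Icc 1 (sp C τ p), if s ≤ fa a p then (1 : ℝ) else 0 := by
      intro a _
      rw [← hmin a p]
      push_cast
      rfl
    rw [sum_congr rfl h1, sum_comm]
    refine sum_congr rfl fun s _ => ?_
    rw [← sum_filter, sum_const, nsmul_eq_mul, mul_one]
    rfl
  rw [hsum1]
  have hτn : 0 < (τ * n) ^ (r - 1) := by positivity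
  -- compare with the good tuples
  have hsum2 : (∑ p ∈ T, ∑ s ∈ Icc 1 (sp C τ p), (cnt C p s : ℝ) * Real.log p) *
      (τ * n) ^ (r - 1) ≤ 2 * (n ^ r * Real.log G) := by
    have h1 : (∑ p ∈ T, ∑ s ∈ Icc 1 (sp C τ p), (cnt C p s : ℝ) * Real.log p) *
        (τ * n) ^ (r - 1) ≤ ∑ p ∈ T, ∑ s ∈ Icc 1 (sp C τ p),
        (2 * ∑ f ∈ (tu r C).filter (fun f => ¬ (G < (tg f : ℝ))),
          if ∀ i, s ≤ fa (f i) p then Real.log p else 0) := by
      rw [sum_mul]
      refine sum_le_sum fun p hp => ?_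
      rw [sum_mul]
      refine sum_le_sum fun s hs => ?_
      have hlp : 0 ≤ Real.log p := Real.log_natCast_nonneg _
      have h2 := hgood p s (mem_Icc.1 hs).2
      have h3 : ∑ f ∈ (tu r C).filter (fun f => ¬ (G < (tg f : ℝ))),
          (if ∀ i, s ≤ fa (f i) p then Real.log p else 0) =
          (((tu r C).filter fun f => ¬ (G < (tg f : ℝ)) ∧ ∀ i, s ≤ fa (f i) p).card : ℝ) *
            Real.log p := by
        rw [← sum_filter, sum_const, nsmul_eq_mul, filter_filter]
      rw [h3]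
      have h4 := mul_le_mul_of_nonneg_right h2 hlp
      linarith
    refine h1.trans ?_
    have h2 : ∑ p ∈ T, ∑ s ∈ Icc 1 (sp C τ p),
        (2 * ∑ f ∈ (tu r C).filter (fun f => ¬ (G < (tg f : ℝ))),
          if ∀ i, s ≤ fa (f i) p then Real.log p else 0) =
        2 * ∑ f ∈ (tu r C).filter (fun f => ¬ (G < (tg f : ℝ))), ∑ p ∈ T,
          ∑ s ∈ Icc 1 (sp C τ p), if ∀ i, s ≤ fa (f i) p then Real.log p else 0 := by
      simp only [← mul_sum]
      congr 1
      rw [sum_comm]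
      refine sum_congr rfl fun p _ => ?_
      rw [sum_comm]
    rw [h2]
    refine mul_le_mul_of_nonneg_left ?_ (by norm_num)
    have h3 : ∀ f ∈ (tu r C).filter (fun f => ¬ (G < (tg f : ℝ))), ∑ p ∈ T,
        ∑ s ∈ Icc 1 (sp C τ p), (if ∀ i, s ≤ fa (f i) p then Real.log p else 0) ≤
        Real.log G := by
      intro f hf
      rw [mem_filter, not_lt] at hf
      have hf0 : ∀ i, f i ≠ 0 := by
        intro i h
        have := Fintype.mem_piFinset.1 hf.1 i
        rw [h] at this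
        exact h0 this
      have h4 : ∀ p ∈ T, ∑ s ∈ Icc 1 (sp C τ p),
          (if ∀ i, s ≤ fa (f i) p then Real.log p else 0) ≤
          ((tg f).factorization p : ℝ) * Real.log p := by
        intro p hp
        rw [← sum_filter, sum_const, nsmul_eq_mul]
        refine mul_le_mul_of_nonneg_right ?_ (Real.log_natCast_nonneg _)
        have h5 : (Icc 1 (sp C τ p)).filter (fun s => ∀ i, s ≤ fa (f i) p) ⊆
            Icc 1 ((tg f).factorization p) := by
          intro s hs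
          rw [mem_filter, mem_Icc] at hs
          rw [mem_Icc]
          exact ⟨hs.1.1, le_fact_tg hr hf0 (hT p hp) hs.2⟩
        have h6 := card_le_card h5
        rw [Nat.card_Icc, Nat.add_sub_cancel] at h6
        exact_mod_cast h6
      refine (sum_le_sum h4).trans ((sum_fact_le_log (tg f) T).trans ?_)
      refine Real.log_le_log ?_ hf.2
      exact_mod_cast Nat.pos_of_ne_zero (tg_ne_zero hr hf0)
    refine (sum_le_sum h3).trans ?_
    rw [sum_const, nsmul_eq_mul]
    refine mul_le_mul_of_nonneg_right ?_ hlG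
    have h7 : ((tu r C).filter fun f => ¬ (G < (tg f : ℝ))).card ≤ C.card ^ r := by
      refine (card_filter_le _ _).trans (le_of_eq ?_)
      unfold tu
      rw [Fintype.card_piFinset, prod_const, card_univ, Fintype.card_fin]
    rw [hnd]
    exact_mod_cast h7
  have h8 : 2 / τ ^ (r - 1) * n * Real.log G * (τ * n) ^ (r - 1) = 2 * (n ^ r * Real.log G) := by
    obtain ⟨r', rfl⟩ : ∃ r', r = r' + 1 := ⟨r - 1, by omega⟩
    rw [Nat.add_sub_cancel, mul_pow, pow_succ]
    field_simp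
  rw [← h8] at hsum2
  exact le_of_mul_le_mul_right hsum2 hτn

end Pool.Agent.L5helper37.GC
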