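import Mathlib
import Pool.Agent.L5helper37.GC.Cls

/-!
# Product sets of coloured sets in which most tuples of a colour have a small common divisor
-/

set_option autoImplicit false

namespace Pool.Agent.L5helper37.GC

open Finset Pool.Agent.Y359.PE Pool.Agent.R849.SV
open scoped Classical

/-- the colour class -/
noncomputable def cc {ι : Type*} (A : Finset ℤ) (col : ℤ → ι) (a : ℤ) : Finset ℤ :=
  A.filter fun x => col x = col a

lemma mem_cc {ι : Type*} {A : Finset ℤ} {col : ℤ → ι} {a x : ℤ} :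
    x ∈ cc A col a ↔ x ∈ A ∧ col x = col a := by
  unfold cc
  rw [mem_filter]

lemma cc_congr {ι : Type*} {A : Finset ℤ} {col : ℤ → ι} {a b : ℤ} (h : col a = col b) :
    cc A col a = cc A col b := by
  unfold cc
  rw [h]

/-- sums over unions of classes -/
lemma sum_cc {ι : Type*} (A : Finset ℤ) (col : ℤ → ι) (A₁ : Finset ℤ) (h1 : A₁ ⊆ A)
    (h2 : ∀ a ∈ A₁, cc A col a ⊆ A₁) (F : ℤ → ℝ) (K : ℝ)
    (hF : ∀ a ∈ A₁, ∑ x ∈ cc A col a, F x ≤ K * (cc A col a).card) :
    ∑ a ∈ A₁, F a ≤ K * A₁.card := by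
  have e1 : ∀ c ∈ A₁.image col, ∑ a ∈ A₁.filter (fun a => col a = c), F a ≤
      K * ((A₁.filter fun a => col a = c).card : ℝ) := by
    intro c hc
    obtain ⟨a, ha, rfl⟩ := mem_image.1 hc
    have : A₁.filter (fun x => col x = col a) = cc A col a := by
      ext x
      rw [mem_filter, mem_cc]
      exact ⟨fun h => ⟨h1 h.1, h.2⟩, fun h => ⟨h2 a ha (mem_cc.2 h), h.2⟩⟩
    rw [this]
    exact hF a ha
  rw [← sum_fiberwise_of_maps_to (fun x hx => mem_image_of_mem col hx)]
  refine (sum_le_sum e1).trans ?_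
  rw [← mul_sum]
  refine le_of_eq ?_
  congr 1
  have := card_eq_sum_card_image col A₁
  exact_mod_cast this.symm

/-- the exponents of the small part -/
noncomputable def gF (C : Finset ℤ) (τ : ℝ) (a : ℤ) : ℕ →₀ ℕ :=
  Finsupp.onFinset a.natAbs.primeFactors (fun p => min (fa a p) (sp C τ p)) (by
    intro p hp
    by_contra h
    apply hp
    have : fa a p = 0 := by
      unfold fa
      rw [← Finsupp.notMem_support_iff, Nat.support_factorization]
      exact h
    rw [this, Nat.zero_min])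

/-- the small part -/
noncomputable def gs (C : Finset ℤ) (τ : ℝ) (a : ℤ) : ℕ := (gF C τ a).prod fun p e => p ^ e

lemma gF_prime {C : Finset ℤ} {τ : ℝ} {a : ℤ} {p : ℕ} (hp : p ∈ (gF C τ a).support) : p.Prime := by
  have := Finsupp.support_onFinset_subset hp
  exact Nat.prime_of_mem_primeFactors this

lemma gs_fact (C : Finset ℤ) (τ : ℝ) (a : ℤ) (p : ℕ) :
    (gs C τ a).factorization p = min (fa a p) (sp C τ p) := by
  unfold gs
  rw [Nat.prod_pow_factorization_eq_self fun p hp => gF_prime hp]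
  rfl

lemma gs_ne_zero (C : Finset ℤ) (τ : ℝ) (a : ℤ) : gs C τ a ≠ 0 := by
  unfold gs
  rw [Finsupp.prod, prod_ne_zero_iff]
  intro p hp
  exact pow_ne_zero _ (gF_prime hp).ne_zero

lemma log_gs {A C : Finset ℤ} {τ : ℝ} {a : ℤ} (ha : a ∈ A) :
    Real.log (gs C τ a) = ∑ p ∈ pr A, (min (fa a p : ℝ) (sp C τ p)) * Real.log p := by
  rw [Real.log_nat_eq_sum_factorization,
    Finsupp.sum_of_support_subset (s := pr A) _ _ _ (fun p _ => by simp)]
  · refine sum_congr rfl fun p _ => ?_
    rw [gs_fact]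
    push_cast
    rfl
  · intro p hp
    rw [Finsupp.mem_support_iff, gs_fact] at hp
    by_contra h
    rw [fa_eq_zero ha h, Nat.zero_min] at hp
    exact hp rfl

/-- **Colourings in which most tuples of one colour have a small common divisor.** -/
theorem gcd_avg (k : ℕ) (hk : 1 ≤ k) (r : ℕ) (hr : 1 ≤ r) (ε : ℝ) (hε : 0 < ε) (hε1 : ε ≤ 1) :
    ∃ κ : ℝ, 0 < κ ∧ κ ≤ 1 ∧ ∀ D : ℝ, ∃ c : ℝ, 0 < c ∧ ∀ (ι : Type) (A : Finset ℤ) (col : ℤ → ι),
      A.Nonempty → (0 : ℤ) ∉ A →
      ∑ a ∈ A, ((bad r (cc A col a) ((A.card : ℝ) ^ D)).card : ℝ) /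
        ((cc A col a).card : ℝ) ^ r ≤ κ * A.card →
      c * (A.card : ℝ) ^ ((k : ℝ) - ε) ≤ (pk k A).card := by
  have hkr : (1 : ℝ) ≤ k := by exact_mod_cast hk
  have hk0 : (0 : ℝ) < k := by linarith
  obtain ⟨τ, hτ0, hτ1, hsmall⟩ := small k hk ε hε hε1
  set σ : ℝ := τ ^ r / 2 with hσ
  have hσ0 : 0 < σ := by positivity
  have hτr : τ ^ r ≤ 1 := pow_le_one₀ hτ0.le hτ1
  refine ⟨σ / 2, by positivity, by rw [hσ]; linarith, fun D => ?_⟩
  set D' : ℝ := max D 0 with hD'
  have hD'0 : 0 ≤ D' := le_max_right _ _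
  obtain ⟨c, hc, hsmall⟩ := hsmall (2 * (2 / τ ^ (r - 1) * D'))
  refine ⟨min (c / 2 ^ (k : ℝ)) (1 / 4 ^ (k : ℝ)), by positivity, fun ι A col hA h0 hav => ?_⟩
  have hN1 : (1 : ℝ) ≤ A.card := by exact_mod_cast card_pos.2 hA
  have hN0 : (0 : ℝ) < A.card := by linarith
  have hPk : (1 : ℝ) ≤ (pk k A).card := by exact_mod_cast card_pos.2 (pk_nonempty hA)
  rcases lt_or_ge (A.card : ℝ) 4 with hsm | hbig
  · have h1 : (A.card : ℝ) ^ ((k : ℝ) - ε) ≤ 4 ^ (k : ℝ) :=
      (Real.rpow_le_rpow hN0.le hsm.le (by linarith)).trans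
        (Real.rpow_le_rpow_of_exponent_le (by norm_num) (by linarith))
    calc min (c / 2 ^ (k : ℝ)) (1 / 4 ^ (k : ℝ)) * (A.card : ℝ) ^ ((k : ℝ) - ε)
        ≤ (1 / 4 ^ (k : ℝ)) * 4 ^ (k : ℝ) := by
          refine mul_le_mul (min_le_right _ _) h1 (by positivity) (by positivity)
      _ = 1 := by field_simp
      _ ≤ _ := hPk
  · -- the good elements
    set G : ℝ := (A.card : ℝ) ^ D' with hG
    have hG1 : 1 ≤ G := Real.one_le_rpow hN1 hD'0
    have hlG : Real.log G = D' * Real.log A.card := Real.log_rpow hN0 _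
    have hbadmono : ∀ C : Finset ℤ, (bad r C G).card ≤ (bad r C ((A.card : ℝ) ^ D)).card := by
      intro C
      refine card_le_card fun f hf => ?_
      unfold bad at hf ⊢
      rw [mem_filter] at hf ⊢
      refine ⟨hf.1, lt_of_le_of_lt ?_ hf.2⟩
      exact Real.rpow_le_rpow_of_exponent_le hN1 (le_max_left _ _)
    set A₁ := A.filter fun a => ((bad r (cc A col a) G).card : ℝ) ≤
      σ * ((cc A col a).card : ℝ) ^ r with hA₁
    have hccpos : ∀ a ∈ A, (0 : ℝ) < (cc A col a).card := by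
      intro a ha
      exact_mod_cast card_pos.2 ⟨a, mem_cc.2 ⟨ha, rfl⟩⟩
    have hcount : ((A.filter fun a => ¬ (((bad r (cc A col a) G).card : ℝ) ≤
        σ * ((cc A col a).card : ℝ) ^ r)).card : ℝ) ≤ A.card / 2 := by
      have h1 : ((A.filter fun a => ¬ (((bad r (cc A col a) G).card : ℝ) ≤
          σ * ((cc A col a).card : ℝ) ^ r)).card : ℝ) * σ ≤ σ / 2 * A.card := by
        refine le_trans ?_ hav
        rw [← nsmul_eq_mul, ← sum_const]
        refine (sum_le_sum fun a ha => ?_).trans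
          (sum_le_sum_of_subset_of_nonneg (filter_subset _ _) fun a _ _ => by positivity)
        rw [mem_filter, not_le] at ha
        have h2 := hccpos a ha.1
        rw [le_div_iff₀ (by positivity)]
        refine ha.2.le.trans ?_
        exact_mod_cast hbadmono _
      have h3 : σ / 2 * (A.card : ℝ) = A.card / 2 * σ := by ring
      rw [h3] at h1
      exact le_of_mul_le_mul_right h1 hσ0
    have hA₁c : (A.card : ℝ) ≤ 2 * A₁.card := by
      have h1 := card_filter_add_card_filter_not (s := A)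
        (fun a => ((bad r (cc A col a) G).card : ℝ) ≤ σ * ((cc A col a).card : ℝ) ^ r)
      rw [← hA₁] at h1
      have h2 : ((A₁.card + (A.filter fun a => ¬ (((bad r (cc A col a) G).card : ℝ) ≤
        σ * ((cc A col a).card : ℝ) ^ r)).card : ℕ) : ℝ) = A.card := by rw [h1]
      push_cast at h2
      linarith
    have hA₁2 : (2 : ℝ) ≤ A₁.card := by linarith
    have hA₁n : A₁.Nonempty := by
      rw [← card_pos]
      have : (0 : ℝ) < A₁.card := by linarith
      exact_mod_cast this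
    have hA₁s : A₁ ⊆ A := filter_subset _ _
    have hsat : ∀ a ∈ A₁, cc A col a ⊆ A₁ := by
      intro a ha x hx
      rw [mem_cc] at hx
      rw [hA₁, mem_filter] at ha ⊢
      refine ⟨hx.1, ?_⟩
      rw [cc_congr hx.2]
      exact ha.2
    have hA₁0 : (0 : ℤ) ∉ A₁ := fun h => h0 (hA₁s h)
    have hlN : Real.log A.card ≤ 2 * Real.log A₁.card := by
      have h1 : Real.log A.card ≤ Real.log (2 * A₁.card) := Real.log_le_log hN0 hA₁c
      rw [Real.log_mul (by norm_num) (by linarith)] at h1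
      have h2 := Real.log_le_log (by norm_num) hA₁2
      linarith
    have hlN0 : 0 ≤ Real.log A.card := Real.log_nonneg hN1
    set g : ℤ → ℕ := fun a => gs (cc A col a) τ a with hg
    have hcc0 : ∀ a, (0 : ℤ) ∉ cc A col a := fun a h => h0 (mem_cc.1 h).1
    have hccn : ∀ a ∈ A, (cc A col a).Nonempty := fun a ha => ⟨a, mem_cc.2 ⟨ha, rfl⟩⟩
    have hmain := hsmall A₁ hA₁n hA₁0 g (fun a _ => gs_ne_zero _ _ _) (by
      have h1 := sum_cc A col A₁ hA₁s hsat (fun a => Real.log (g a))
        (2 / τ ^ (r - 1) * Real.log G) (by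
          intro a ha
          have haA := hA₁s ha
          have h2 := class_count hr (hcc0 a) (hccn a haA) hG1 hτ0 hτ1 (by
            rw [hA₁, mem_filter] at ha
            exact ha.2) (pr A) (fun p hp => prime_of_mem_pr hp)
          have h3 : ∑ x ∈ cc A col a, Real.log (g x) = ∑ x ∈ cc A col a, ∑ p ∈ pr A,
              (min (fa x p : ℝ) (sp (cc A col a) τ p)) * Real.log p := by
            refine sum_congr rfl fun x hx => ?_
            rw [hg]
            dsimp only
            rw [cc_congr (mem_cc.1 hx).2]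
            exact log_gs (mem_cc.1 hx).1
          rw [h3]
          refine h2.trans (le_of_eq ?_)
          ring)
      refine h1.trans ?_
      rw [hlG]
      have h2 : 0 ≤ 2 / τ ^ (r - 1) * D' * A₁.card := by positivity
      have h3 := mul_le_mul_of_nonneg_left hlN h2
      linarith) (by
      intro p _
      have h1 := sum_cc A col A₁ hA₁s hsat
        (fun a => if fa a p ≠ (g a).factorization p then (1 : ℝ) else 0) τ (by
          intro a ha
          have h2 := cnt_succ hτ0 (hcc0 a) (p := p)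
          refine le_trans (le_of_eq ?_) h2
          rw [← sum_filter, sum_const, nsmul_eq_mul, mul_one]
          congr 2
          refine filter_congr fun x hx => ?_
          rw [hg]
          dsimp only
          rw [gs_fact, cc_congr (mem_cc.1 hx).2])
      rwa [← sum_filter, sum_const, nsmul_eq_mul, mul_one] at h1)
    have hmono : ((pk k A₁).card : ℝ) ≤ (pk k A).card := by
      exact_mod_cast card_le_card (pk_mono hA₁s)
    have h1 : (A.card : ℝ) ^ ((k : ℝ) - ε) ≤ 2 ^ (k : ℝ) * (A₁.card : ℝ) ^ ((k : ℝ) - ε) := by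
      calc (A.card : ℝ) ^ ((k : ℝ) - ε) ≤ (2 * A₁.card) ^ ((k : ℝ) - ε) :=
            Real.rpow_le_rpow hN0.le hA₁c (by linarith)
        _ = 2 ^ ((k : ℝ) - ε) * (A₁.card : ℝ) ^ ((k : ℝ) - ε) :=
            Real.mul_rpow (by norm_num) (by positivity)
        _ ≤ _ := mul_le_mul_of_nonneg_right
            (Real.rpow_le_rpow_of_exponent_le (by norm_num) (by linarith)) (by positivity)
    calc min (c / 2 ^ (k : ℝ)) (1 / 4 ^ (k : ℝ)) * (A.card : ℝ) ^ ((k : ℝ) - ε)
        ≤ (c / 2 ^ (k : ℝ)) * (2 ^ (k : ℝ) * (A₁.card : ℝ) ^ ((k : ℝ) - ε)) :=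
          mul_le_mul (min_le_left _ _) h1 (by positivity) (by positivity)
      _ = c * (A₁.card : ℝ) ^ ((k : ℝ) - ε) := by field_simp
      _ ≤ (pk k A₁).card := hmain
      _ ≤ _ := hmono

end Pool.Agent.L5helper37.GC
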