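import Mathlib
import Pool.Agent.L5helper37.GC.Gcd
import Pool.Agent.R849.SV.Main

/-!
# Consequences: few colours, values of polynomials, clustered sets, shifts
-/

set_option autoImplicit false

namespace Pool.Agent.L5helper37.GC

open Finset Pool.Agent.Y359.PE Pool.Agent.R849.SV
open scoped Classical

/-- the number of the tuples with two equal given coordinates -/
lemma card_eq_coord (r : ℕ) (C : Finset ℤ) (i j : Fin r) (hij : i ≠ j) :
    ((tu r C).filter fun f => f i = f j).card ≤ C.card ^ (r - 1) := by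
  have h1 : ((tu r C).filter fun f => f i = f j).card ≤
      (Fintype.piFinset fun _ : {x : Fin r // x ≠ i} => C).card := by
    refine card_le_card_of_injOn (fun f x => f x) ?_ ?_
    · intro f hf
      rw [mem_coe, mem_filter] at hf
      rw [mem_coe, Fintype.mem_piFinset]
      intro x
      exact Fintype.mem_piFinset.1 hf.1 x
    · intro f hf g hg hfg
      rw [mem_coe, mem_filter] at hf hg
      have h2 : ∀ x, x ≠ i → f x = g x := fun x hx => congrFun hfg ⟨x, hx⟩
      funext x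
      by_cases hx : x = i
      · rw [hx, hf.2, hg.2]
        exact h2 j hij.symm
      · exact h2 x hx
  refine h1.trans (le_of_eq ?_)
  rw [Fintype.card_piFinset, prod_const, card_univ]
  congr 1
  rw [Fintype.card_subtype_compl, Fintype.card_fin, Fintype.card_subtype_eq]

lemma card_not_inj (r : ℕ) (C : Finset ℤ) :
    ((tu r C).filter fun f => ¬ Function.Injective f).card ≤ r ^ 2 * C.card ^ (r - 1) := by
  have h1 : ((tu r C).filter fun f => ¬ Function.Injective f) ⊆
      ((univ : Finset (Fin r × Fin r)).filter fun w => w.1 ≠ w.2).biUnion fun w =>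
        (tu r C).filter fun f => f w.1 = f w.2 := by
    intro f hf
    rw [mem_filter] at hf
    have h2 := hf.2
    unfold Function.Injective at h2
    push Not at h2
    obtain ⟨i, j, h3, h4⟩ := h2
    rw [mem_biUnion]
    exact ⟨(i, j), mem_filter.2 ⟨mem_univ _, h4⟩, mem_filter.2 ⟨hf.1, h3⟩⟩
  refine (card_le_card h1).trans (card_biUnion_le.trans ?_)
  have h2 : ∀ w ∈ (univ : Finset (Fin r × Fin r)).filter (fun w => w.1 ≠ w.2),
      ((tu r C).filter fun f => f w.1 = f w.2).card ≤ C.card ^ (r - 1) := fun w hw =>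
    card_eq_coord r C w.1 w.2 (mem_filter.1 hw).2
  refine (sum_le_sum h2).trans ?_
  rw [sum_const, smul_eq_mul]
  refine Nat.mul_le_mul_right _ ((card_filter_le _ _).trans (le_of_eq ?_))
  rw [card_univ, Fintype.card_prod, Fintype.card_fin, sq]

/-- **Few colours.** -/
theorem few (k : ℕ) (hk : 1 ≤ k) (r : ℕ) (hr : 1 ≤ r) (ε : ℝ) (hε : 0 < ε) (hε1 : ε ≤ 1) :
    ∃ κ : ℝ, 0 < κ ∧ κ ≤ 1 ∧ ∀ D : ℝ, ∃ c : ℝ, 0 < c ∧ ∀ (ι : Type) (A : Finset ℤ) (col : ℤ → ι),
      A.Nonempty → (0 : ℤ) ∉ A → ((A.image col).card : ℝ) ≤ κ * A.card →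
      (∀ S ⊆ A, S.card = r → (∀ a ∈ S, ∀ b ∈ S, col a = col b) →
        ((S.gcd fun a => a.natAbs : ℕ) : ℝ) ≤ (A.card : ℝ) ^ D) →
      c * (A.card : ℝ) ^ ((k : ℝ) - ε) ≤ (pk k A).card := by
  obtain ⟨κ, hκ, hκ1, h⟩ := gcd_avg k hk r hr ε hε hε1
  have hr0 : (1 : ℝ) ≤ (r : ℝ) ^ 2 := by
    have : (1 : ℝ) ≤ r := by exact_mod_cast hr
    exact one_le_pow₀ this
  refine ⟨κ / (r : ℝ) ^ 2, by positivity, ?_, fun D => ?_⟩
  · rw [div_le_one (by positivity)]
    linarith
  obtain ⟨c, hc, h⟩ := h D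
  refine ⟨c, hc, fun ι A col hA h0 hcol hgcd => h ι A col hA h0 ?_⟩
  have h1 : ∀ a ∈ A, ((bad r (cc A col a) ((A.card : ℝ) ^ D)).card : ℝ) /
      ((cc A col a).card : ℝ) ^ r ≤ (r : ℝ) ^ 2 * (1 / fc A col a) := by
    intro a ha
    have hn : 0 < (cc A col a).card := card_pos.2 ⟨a, mem_cc.2 ⟨ha, rfl⟩⟩
    have hnr : (0 : ℝ) < (cc A col a).card := by exact_mod_cast hn
    have h2 : (bad r (cc A col a) ((A.card : ℝ) ^ D)).card ≤
        r ^ 2 * (cc A col a).card ^ (r - 1) := by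
      refine (card_le_card ?_).trans (card_not_inj r _)
      intro f hf
      unfold bad at hf
      rw [mem_filter] at hf ⊢
      refine ⟨hf.1, fun hinj => ?_⟩
      have hf1 : ∀ i, f i ∈ cc A col a := fun i => Fintype.mem_piFinset.1 hf.1 i
      have h3 := hgcd (univ.image f) (by
        intro x hx
        obtain ⟨i, -, rfl⟩ := mem_image.1 hx
        exact (mem_cc.1 (hf1 i)).1) (by
        rw [card_image_of_injective _ hinj, card_univ, Fintype.card_fin]) (by
        intro x hx y hy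
        obtain ⟨i, -, rfl⟩ := mem_image.1 hx
        obtain ⟨j, -, rfl⟩ := mem_image.1 hy
        rw [(mem_cc.1 (hf1 i)).2, (mem_cc.1 (hf1 j)).2])
      have h4 : ((univ.image f).gcd fun a => a.natAbs) = tg f := by
        unfold tg
        rw [Finset.gcd_image]
        rfl
      rw [h4] at h3
      linarith [hf.2]
    have h3 : ((bad r (cc A col a) ((A.card : ℝ) ^ D)).card : ℝ) ≤
        (r : ℝ) ^ 2 * ((cc A col a).card : ℝ) ^ (r - 1) := by exact_mod_cast h2
    rw [div_le_iff₀ (by positivity)]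
    refine h3.trans (le_of_eq ?_)
    have e1 : ((fc A col a : ℕ) : ℝ) = (cc A col a).card := rfl
    rw [e1]
    obtain ⟨r', rfl⟩ : ∃ r', r = r' + 1 := ⟨r - 1, by omega⟩
    rw [Nat.add_sub_cancel, pow_succ ((cc A col a).card : ℝ)]
    field_simp
  refine (sum_le_sum h1).trans ?_
  rw [← mul_sum]
  have h2 := sum_inv_fc A col
  have h3 := mul_le_mul_of_nonneg_left (h2.trans hcol) (show 0 ≤ (r : ℝ) ^ 2 by positivity)
  refine h3.trans (le_of_eq ?_)
  field_simp

/-- **Values of primitive polynomials in few short intervals.** -/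
theorem polys (k : ℕ) (hk : 1 ≤ k) (ε : ℝ) (hε : 0 < ε) (hε1 : ε ≤ 1) (d : ℕ) :
    ∃ κ : ℝ, 0 < κ ∧ κ ≤ 1 ∧ ∀ D : ℕ, ∃ c : ℝ, 0 < c ∧ ∀ (ι : Type) (A : Finset ℤ) (T : Finset ι)
      (f : ι → Polynomial ℤ) (t : ι → ℤ), A.Nonempty →
      (∀ i ∈ T, (f i).IsPrimitive ∧ 1 ≤ (f i).natDegree ∧ (f i).natDegree ≤ d) →
      (∀ a ∈ A, ∃ i ∈ T, ∃ x : ℤ, t i ≤ x ∧ x ≤ t i + (A.card : ℤ) ^ D ∧ (f i).eval x = a) →
      (T.card : ℝ) ≤ κ * A.card →
      c * (A.card : ℝ) ^ ((k : ℝ) - ε) ≤ (pk k A).card := by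
  have hkr : (1 : ℝ) ≤ k := by exact_mod_cast hk
  obtain ⟨κ, hκ, hκ1, h⟩ := few k hk (d + 1) (by omega) ε hε hε1
  refine ⟨κ / 2, by positivity, by linarith, fun D => ?_⟩
  obtain ⟨c, hc, h⟩ := h ((2 * (D * (d * (d + 1))) : ℕ) : ℝ)
  refine ⟨min (c / 2 ^ (k : ℝ)) (1 / 4 ^ (k : ℝ)), by positivity, fun ι A T f t hA hf hcov hT => ?_⟩
  have hN1 : (1 : ℝ) ≤ A.card := by exact_mod_cast card_pos.2 hA
  have hN0 : (0 : ℝ) < A.card := by linarith
  have hPk : (1 : ℝ) ≤ (pk k A).card := by exact_mod_cast card_pos.2 (pk_nonempty hA)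
  rcases lt_or_ge (A.card : ℝ) 4 with hsm | hbig
  · have h1 : (A.card : ℝ) ^ ((k : ℝ) - ε) ≤ 4 ^ (k : ℝ) :=
      (Real.rpow_le_rpow hN0.le hsm.le (by linarith)).trans
        (Real.rpow_le_rpow_of_exponent_le (by norm_num) (by linarith))
    calc min (c / 2 ^ (k : ℝ)) (1 / 4 ^ (k : ℝ)) * (A.card : ℝ) ^ ((k : ℝ) - ε)
        ≤ (1 / 4 ^ (k : ℝ)) * 4 ^ (k : ℝ) := by
          refine mul_le_mul (min_le_right _ _) h1 (by positivity) (by positivity)
      _ = 1 := by field_simp
      _ ≤ _ := hPk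
  · have hNn : 4 ≤ A.card := by exact_mod_cast hbig
    set A₀ := A.erase 0 with hA₀
    have hA₀c : A.card ≤ A₀.card + 1 := by
      have := pred_card_le_card_erase (s := A) (a := (0 : ℤ))
      rw [← hA₀] at this
      omega
    have hA₀n : A₀.Nonempty := card_pos.1 (by omega)
    have hA₀2 : A.card ≤ 2 * A₀.card := by omega
    have hA₀r : (A.card : ℝ) ≤ 2 * A₀.card := by exact_mod_cast hA₀2
    obtain ⟨a0, ha0⟩ := hA
    obtain ⟨i0, hi0, -⟩ := hcov a0 ha0
    have : Nonempty ι := ⟨i0⟩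
    choose! col hcol x hx1 hx2 hx3 using hcov
    have hmain := h ι A₀ col hA₀n (notMem_erase _ _) (by
      have h1 : (A₀.image col) ⊆ T := by
        intro i hi
        obtain ⟨a, ha, rfl⟩ := mem_image.1 hi
        exact hcol a (mem_of_mem_erase ha)
      have h2 : ((A₀.image col).card : ℝ) ≤ T.card := by exact_mod_cast card_le_card h1
      have h3 := mul_le_mul_of_nonneg_left hA₀r (show 0 ≤ κ / 2 by positivity)
      linarith) (by
      intro S hS hSc hScol
      have hSn : S.Nonempty := card_pos.1 (by omega)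
      obtain ⟨s, hs⟩ := hSn
      have hsA := mem_of_mem_erase (hS hs)
      obtain ⟨hprim, hd1, hd2⟩ := hf (col s) (hcol s hsA)
      have hxS : ∀ a ∈ S, (f (col s)).eval (x a) = a := by
        intro a ha
        rw [← hScol a ha s hs]
        exact hx3 a (mem_of_mem_erase (hS ha))
      have hinj : Set.InjOn x S := by
        intro a ha b hb hab
        rw [← hxS a ha, ← hxS b hb, hab]
      set q : ℕ := S.gcd fun a => a.natAbs with hq
      have hle : q ≤ (A.card ^ D) ^ ((f (col s)).natDegree * ((f (col s)).natDegree + 1)) := by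
        by_contra hcon
        push Not at hcon
        have h1 := card_le_degree (f (col s)) hprim (S.image x) (A.card ^ D) q (by
          intro y hy z hz
          obtain ⟨a, ha, rfl⟩ := mem_image.1 hy
          obtain ⟨b, hb, rfl⟩ := mem_image.1 hz
          have e1 := hx1 a (mem_of_mem_erase (hS ha))
          have e2 := hx2 a (mem_of_mem_erase (hS ha))
          have e3 := hx1 b (mem_of_mem_erase (hS hb))
          have e4 := hx2 b (mem_of_mem_erase (hS hb))
          rw [hScol a ha s hs] at e1 e2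
          rw [hScol b hb s hs] at e3 e4
          push_cast
          rw [abs_le]
          constructor <;> linarith) (by
          intro y hy
          obtain ⟨a, ha, rfl⟩ := mem_image.1 hy
          rw [hxS a ha]
          have h2 : q ∣ a.natAbs := Finset.gcd_dvd ha
          exact Int.natCast_dvd.2 h2) hcon
        rw [card_image_of_injOn hinj, hSc] at h1
        omega
      have h2 : q ≤ A₀.card ^ (2 * (D * (d * (d + 1)))) := by
        refine hle.trans ?_
        have e1 : 1 ≤ A.card := by omega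
        have e2 : A.card ≤ A₀.card ^ 2 := by nlinarith
        calc (A.card ^ D) ^ ((f (col s)).natDegree * ((f (col s)).natDegree + 1))
            ≤ (A.card ^ D) ^ (d * (d + 1)) := Nat.pow_le_pow_right (Nat.one_le_pow _ _ e1)
              (Nat.mul_le_mul hd2 (by omega))
          _ = A.card ^ (D * (d * (d + 1))) := by rw [← pow_mul]
          _ ≤ (A₀.card ^ 2) ^ (D * (d * (d + 1))) := Nat.pow_le_pow_left e2 _
          _ = _ := by rw [← pow_mul]
      rw [Real.rpow_natCast]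
      exact_mod_cast h2)
    have hmono : ((pk k A₀).card : ℝ) ≤ (pk k A).card := by
      exact_mod_cast card_le_card (pk_mono (erase_subset _ _))
    have h1 : (A.card : ℝ) ^ ((k : ℝ) - ε) ≤ 2 ^ (k : ℝ) * (A₀.card : ℝ) ^ ((k : ℝ) - ε) := by
      calc (A.card : ℝ) ^ ((k : ℝ) - ε) ≤ (2 * A₀.card) ^ ((k : ℝ) - ε) :=
            Real.rpow_le_rpow hN0.le hA₀r (by linarith)
        _ = 2 ^ ((k : ℝ) - ε) * (A₀.card : ℝ) ^ ((k : ℝ) - ε) :=
            Real.mul_rpow (by norm_num) (by positivity)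
        _ ≤ _ := mul_le_mul_of_nonneg_right
            (Real.rpow_le_rpow_of_exponent_le (by norm_num) (by linarith)) (by positivity)
    calc min (c / 2 ^ (k : ℝ)) (1 / 4 ^ (k : ℝ)) * (A.card : ℝ) ^ ((k : ℝ) - ε)
        ≤ (c / 2 ^ (k : ℝ)) * (2 ^ (k : ℝ) * (A₀.card : ℝ) ^ ((k : ℝ) - ε)) :=
          mul_le_mul (min_le_left _ _) h1 (by positivity) (by positivity)
      _ = c * (A₀.card : ℝ) ^ ((k : ℝ) - ε) := by field_simp
      _ ≤ (pk k A₀).card := hmain
      _ ≤ _ := hmono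

/-- covering a clustered set by few intervals -/
lemma cover (X : Finset ℤ) (M : ℕ) (W : ℤ) (hW : 0 ≤ W)
    (hX : ∀ x ∈ X, M ≤ (X.filter fun y => |y - x| ≤ W).card) :
    ∃ T ⊆ X, M * T.card ≤ X.card ∧ ∀ x ∈ X, ∃ t ∈ T, |x - t| ≤ 2 * W := by
  set F := X.powerset.filter fun T => ∀ t ∈ T, ∀ t' ∈ T, t ≠ t' → 2 * W < |t - t'| with hF
  have hFn : F.Nonempty := ⟨∅, by
    rw [hF, mem_filter, mem_powerset]
    exact ⟨empty_subset _, fun t ht => absurd ht (notMem_empty _)⟩⟩
  obtain ⟨T, hT, hmax⟩ := exists_max_image F card hFn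
  rw [hF, mem_filter, mem_powerset] at hT
  refine ⟨T, hT.1, ?_, ?_⟩
  · have h1 : M * T.card ≤ ∑ t ∈ T, (X.filter fun y => |y - t| ≤ W).card := by
      rw [mul_comm, ← smul_eq_mul, ← sum_const]
      exact sum_le_sum fun t ht => hX t (hT.1 ht)
    rw [← card_biUnion] at h1
    · refine h1.trans (card_le_card ?_)
      intro y hy
      obtain ⟨t, -, hy⟩ := mem_biUnion.1 hy
      exact (mem_filter.1 hy).1
    · intro t ht t' ht' htt'
      rw [Function.onFun, disjoint_left]
      intro y hy hy'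
      rw [mem_filter, abs_le] at hy hy'
      have h2 := hT.2 t ht t' ht' htt'
      rw [lt_abs] at h2
      rcases h2 with h2 | h2 <;> linarith [hy.2.1, hy.2.2, hy'.2.1, hy'.2.2]
  · intro x hx
    by_contra hcon
    push Not at hcon
    have hxT : x ∉ T := by
      intro h
      have := hcon x h
      rw [sub_self, abs_zero] at this
      linarith
    have h1 := hmax (insert x T) (by
      rw [hF, mem_filter, mem_powerset]
      refine ⟨insert_subset hx hT.1, ?_⟩
      intro t ht t' ht' htt'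
      rw [mem_insert] at ht ht'
      rcases ht with rfl | ht
      · rcases ht' with rfl | ht'
        · exact absurd rfl htt'
        · exact hcon t' ht'
      · rcases ht' with rfl | ht'
        · rw [abs_sub_comm]
          exact hcon t ht
        · exact hT.2 t ht t' ht' htt')
    rw [card_insert_of_notMem hxT] at h1
    omega

/-- the values of the primitive part -/
lemma dil_le (k : ℕ) (f : Polynomial ℤ) (hf0 : f ≠ 0) (X : Finset ℤ) :
    (pk k (vals f.primPart X)).card ≤ (pk k (vals f X)).card := by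
  have hfg : f = Polynomial.C f.content * f.primPart := f.eq_C_content_mul_primPart
  have hcont : f.content ≠ 0 := fun h => hf0 (Polynomial.content_eq_zero_iff.1 h)
  have h1 : (pk k (vals f.primPart X)).image (fun v => f.content ^ k * v) ⊆ pk k (vals f X) := by
    intro v hv
    obtain ⟨w, hw, rfl⟩ := mem_image.1 hv
    obtain ⟨u, hu, rfl⟩ := mem_image.1 hw
    rw [Fintype.mem_piFinset] at hu
    refine mem_image.2 ⟨fun i => f.content * u i, Fintype.mem_piFinset.2 fun i => ?_, ?_⟩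
    · have h2 := hu i
      unfold vals at h2 ⊢
      rw [mem_erase, mem_image] at h2 ⊢
      obtain ⟨h3, x, hx, h4⟩ := h2
      refine ⟨mul_ne_zero hcont h3, x, hx, ?_⟩
      have h5 : f.eval x = f.content * f.primPart.eval x := by
        conv_lhs => rw [hfg]
        rw [Polynomial.eval_mul, Polynomial.eval_C]
      rw [h5, h4]
    · rw [prod_mul_distrib, prod_const, card_univ, Fintype.card_fin]
  have h2 := card_le_card h1
  rwa [card_image_of_injective _ (mul_right_injective₀ (pow_ne_zero k hcont))] at h2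

/-- **Values of polynomials on clustered sets.** -/
theorem polyClust (k : ℕ) (hk : 1 ≤ k) (ε : ℝ) (hε : 0 < ε) (hε1 : ε ≤ 1) (d : ℕ) :
    ∃ n : ℕ, ∀ D : ℕ, ∃ c : ℝ, 0 < c ∧ ∀ f : Polynomial ℤ, 1 ≤ f.natDegree → f.natDegree ≤ d →
      ∀ X : Finset ℤ, X.Nonempty →
      (∀ x ∈ X, n ≤ (X.filter fun y => |y - x| ≤ (X.card : ℤ) ^ D).card) →
      c * (X.card : ℝ) ^ ((k : ℝ) - ε) ≤ (pk k (vals f X)).card := by
  have hkr : (1 : ℝ) ≤ k := by exact_mod_cast hk
  obtain ⟨κ, hκ, hκ1, h⟩ := polys k hk ε hε hε1 d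
  obtain ⟨n, hn⟩ : ∃ n : ℕ, n = ⌈2 * (d : ℝ) / κ⌉₊ + 16 * d ^ 2 + 1 := ⟨_, rfl⟩
  refine ⟨n, fun D => ?_⟩
  obtain ⟨c, hc, h⟩ := h (2 * D + 1)
  refine ⟨c / (2 * d + 1 : ℝ) ^ (k : ℝ), by positivity, fun f hf hfd X hX hcl => ?_⟩
  have hd1 : 1 ≤ d := hf.trans hfd
  have hXn : n ≤ X.card := by
    obtain ⟨x, hx⟩ := hX
    exact (hcl x hx).trans (card_filter_le _ _)
  -- the primitive part
  obtain ⟨g, hg⟩ : ∃ g, g = f.primPart := ⟨_, rfl⟩
  have hf0 : f ≠ 0 := by
    rintro rfl
    simp at hf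
  have hgd : g.natDegree = f.natDegree := by rw [hg]; exact f.natDegree_primPart
  have hg1 : 0 < g.natDegree := by omega
  obtain ⟨A, hA⟩ : ∃ A, A = vals g X := ⟨_, rfl⟩
  have hXA : X.card ≤ d * (A.card + 1) :=
    hA ▸ (card_vals g hg1 X).trans (Nat.mul_le_mul_right _ (by omega))
  have hXbig : 16 * d ^ 2 ≤ X.card := by omega
  have hA8 : 8 * d ≤ A.card := by
    by_contra hcon
    push Not at hcon
    have h1 : d * (A.card + 1) ≤ d * (8 * d) := Nat.mul_le_mul_left _ hcon
    nlinarith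
  have hA8' : 8 ≤ A.card := by omega
  have hXA2 : X.card ≤ 2 * d * A.card := by
    have : d * (A.card + 1) ≤ d * (2 * A.card) := Nat.mul_le_mul_left _ (by omega)
    calc X.card ≤ d * (A.card + 1) := hXA
      _ ≤ d * (2 * A.card) := this
      _ = 2 * d * A.card := by ring
  have hAn : A.Nonempty := card_pos.1 (by omega)
  obtain ⟨T, hTX, hTc, hTcov⟩ := cover X n ((X.card : ℤ) ^ D) (by positivity) hcl
  have hXr : (X.card : ℝ) ≤ 2 * d * A.card := by exact_mod_cast hXA2
  have hmain := h ℤ A T (fun _ => g) (fun t => t - 2 * (X.card : ℤ) ^ D) hAn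
    (fun i _ => ⟨hg ▸ f.isPrimitive_primPart, by omega, by omega⟩) (by
      intro a ha
      rw [hA] at ha
      unfold vals at ha
      rw [mem_erase, mem_image] at ha
      obtain ⟨-, x, hx, rfl⟩ := ha
      obtain ⟨t, ht, hxt⟩ := hTcov x hx
      refine ⟨t, ht, x, ?_, ?_, rfl⟩
      · rw [abs_le] at hxt
        linarith
      · rw [abs_le] at hxt
        have h1 : 4 * X.card ^ D ≤ A.card ^ (2 * D + 1) := by
          have e1 : X.card ≤ A.card ^ 2 := by nlinarith
          calc 4 * X.card ^ D ≤ A.card * (A.card ^ 2) ^ D :=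
                Nat.mul_le_mul (by omega) (Nat.pow_le_pow_left e1 _)
            _ = A.card ^ (2 * D + 1) := by rw [← pow_mul, pow_succ, mul_comm]
        have h2 : 4 * (X.card : ℤ) ^ D ≤ (A.card : ℤ) ^ (2 * D + 1) := by exact_mod_cast h1
        linarith) (by
      have hnr : (0 : ℝ) < n := by
        have : 0 < n := by omega
        exact_mod_cast this
      have h1 : (n : ℝ) * T.card ≤ X.card := by exact_mod_cast hTc
      have h2 : 2 * (d : ℝ) ≤ κ * n := by
        have h3 : 2 * (d : ℝ) / κ ≤ n := by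
          refine (Nat.le_ceil _).trans ?_
          rw [hn]
          push_cast
          have : (0 : ℝ) ≤ 16 * (d : ℝ) ^ 2 := by positivity
          linarith
        rw [div_le_iff₀ hκ] at h3
        linarith
      refine le_of_mul_le_mul_left ?_ hnr
      calc (n : ℝ) * T.card ≤ X.card := h1
        _ ≤ 2 * d * A.card := hXr
        _ ≤ κ * n * A.card := mul_le_mul_of_nonneg_right h2 (by positivity)
        _ = n * (κ * A.card) := by ring)
  have hdil : (pk k A).card ≤ (pk k (vals f X)).card := by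
    rw [hA, hg]
    exact dil_le k f hf0 X
  have hXr' : (X.card : ℝ) ≤ (2 * d + 1) * A.card := by
    have : (0 : ℝ) ≤ A.card := Nat.cast_nonneg _
    linarith
  have hAr : (0 : ℝ) < A.card := by exact_mod_cast (by omega : 0 < A.card)
  have h7 : (X.card : ℝ) ^ ((k : ℝ) - ε) ≤
      (2 * d + 1 : ℝ) ^ (k : ℝ) * (A.card : ℝ) ^ ((k : ℝ) - ε) := by
    calc (X.card : ℝ) ^ ((k : ℝ) - ε) ≤ ((2 * d + 1) * A.card) ^ ((k : ℝ) - ε) :=
          Real.rpow_le_rpow (by positivity) hXr' (by linarith)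
      _ = (2 * d + 1 : ℝ) ^ ((k : ℝ) - ε) * (A.card : ℝ) ^ ((k : ℝ) - ε) :=
          Real.mul_rpow (by positivity) (by positivity)
      _ ≤ _ := by
          refine mul_le_mul_of_nonneg_right (Real.rpow_le_rpow_of_exponent_le ?_ (by linarith))
            (by positivity)
          have : (0 : ℝ) ≤ d := Nat.cast_nonneg _
          linarith
  calc c / (2 * d + 1 : ℝ) ^ (k : ℝ) * (X.card : ℝ) ^ ((k : ℝ) - ε)
      ≤ c / (2 * d + 1 : ℝ) ^ (k : ℝ) *
        ((2 * d + 1 : ℝ) ^ (k : ℝ) * (A.card : ℝ) ^ ((k : ℝ) - ε)) :=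
        mul_le_mul_of_nonneg_left h7 (by positivity)
    _ = c * (A.card : ℝ) ^ ((k : ℝ) - ε) := by field_simp
    _ ≤ (pk k A).card := hmain
    _ ≤ _ := by exact_mod_cast hdil

/-- **Values of polynomials at shifts.** -/
theorem shifts (k : ℕ) (hk : 1 ≤ k) (ε : ℝ) (hε : 0 < ε) (hε1 : ε ≤ 1) (d : ℕ) :
    ∃ n : ℕ, ∀ D : ℕ, ∃ c : ℝ, 0 < c ∧ ∀ f : Polynomial ℤ, 1 ≤ f.natDegree → f.natDegree ≤ d →
      ∀ S T : Finset ℤ, S.Nonempty → n ≤ T.card →
      (∀ x ∈ T, ∀ y ∈ T, |x - y| ≤ (S.card : ℤ) ^ D) → ∃ t : Fin k → ℤ, (∀ i, t i ∈ T) ∧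
      c * (S.card : ℝ) ^ ((k : ℝ) - ε) ≤ (((Fintype.piFinset fun _ : Fin k => S).image
        fun s => ∏ i, f.eval (s i + t i)).card : ℝ) := by
  obtain ⟨n, h⟩ := polyClust k hk ε hε hε1 d
  have hkr : (1 : ℝ) ≤ k := by exact_mod_cast hk
  refine ⟨n + 1, fun D => ?_⟩
  obtain ⟨c, hc, h⟩ := h D
  set W : ℝ := ((n : ℝ) + 1) ^ k with hW
  have hW0 : 0 < W := by positivity
  refine ⟨c / W, by positivity, fun f hf hfd S T₀ hS hTn hTw => ?_⟩
  obtain ⟨T, hTT, hTc⟩ := exists_subset_card_eq hTn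
  have hT0 : 0 < T.card := by omega
  obtain ⟨t0, ht0⟩ := card_pos.1 hT0
  set A : Finset ℤ := thick S T with hA
  have hSA : S.card ≤ A.card := by
    have h1 : S.image (fun s => s + t0) ⊆ A := by
      intro y hy
      obtain ⟨s, hs, rfl⟩ := mem_image.1 hy
      exact mem_image.2 ⟨(s, t0), mem_product.2 ⟨hs, ht0⟩, rfl⟩
    have h2 : (S.image fun s => s + t0).card = S.card :=
      card_image_of_injective _ (add_left_injective _)
    exact h2 ▸ card_le_card h1
  have hAn : A.Nonempty := card_pos.1 ((card_pos.2 hS).trans_le hSA)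
  have hcl := thick_clust S T n (S.card ^ D) (by omega) (fun x hx y hy => by
    have := hTw x (hTT hx) y (hTT hy)
    push_cast
    exact this)
  have h1 := h f hf hfd A hAn (by
    intro x hx
    refine (hcl x hx).trans (card_le_card fun y hy => ?_)
    rw [mem_filter] at hy ⊢
    refine ⟨hy.1, hy.2.trans ?_⟩
    exact_mod_cast Nat.pow_le_pow_left hSA D)
  have h2 : (S.card : ℝ) ^ ((k : ℝ) - ε) ≤ (A.card : ℝ) ^ ((k : ℝ) - ε) :=
    Real.rpow_le_rpow (by positivity) (by exact_mod_cast hSA) (by linarith)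
  have h3 : pk k (vals f A) ⊆ (Fintype.piFinset fun _ : Fin k => T).biUnion fun t =>
      (Fintype.piFinset fun _ : Fin k => S).image fun s => ∏ i, f.eval (s i + t i) := by
    intro v hv
    obtain ⟨g, hg, rfl⟩ := mem_image.1 hv
    rw [Fintype.mem_piFinset] at hg
    have hg' : ∀ i, ∃ s : ℤ × ℤ, s ∈ S ×ˢ T ∧ f.eval (s.1 + s.2) = g i := by
      intro i
      obtain ⟨x, hx1, hx2⟩ := mem_image.1 (mem_of_mem_erase (hg i))
      obtain ⟨s, hs1, hs2⟩ := mem_image.1 hx1
      refine ⟨s, hs1, ?_⟩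
      rw [hs2]
      exact hx2
    choose s hs1 hs2 using hg'
    rw [mem_biUnion]
    refine ⟨fun i => (s i).2, Fintype.mem_piFinset.2 fun i => (mem_product.1 (hs1 i)).2, ?_⟩
    refine mem_image.2 ⟨fun i => (s i).1, Fintype.mem_piFinset.2 fun i =>
      (mem_product.1 (hs1 i)).1, ?_⟩
    exact prod_congr rfl fun i _ => hs2 i
  have h4 : ((pk k (vals f A)).card : ℝ) ≤ ∑ t ∈ Fintype.piFinset fun _ : Fin k => T,
      (((Fintype.piFinset fun _ : Fin k => S).image
        fun s => ∏ i, f.eval (s i + t i)).card : ℝ) := by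
    exact_mod_cast (card_le_card h3).trans card_biUnion_le
  by_contra hcon
  push Not at hcon
  have h5 : ∑ t ∈ Fintype.piFinset fun _ : Fin k => T,
      (((Fintype.piFinset fun _ : Fin k => S).image
        fun s => ∏ i, f.eval (s i + t i)).card : ℝ) <
      ∑ t ∈ Fintype.piFinset fun _ : Fin k => T, c / W * (S.card : ℝ) ^ ((k : ℝ) - ε) := by
    refine sum_lt_sum_of_nonempty ⟨fun _ => t0, Fintype.mem_piFinset.2 fun _ => ht0⟩ ?_
    intro t ht
    exact hcon t fun i => hTT (Fintype.mem_piFinset.1 ht i)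
  rw [sum_const, nsmul_eq_mul, Fintype.card_piFinset, prod_const, card_univ, Fintype.card_fin,
    hTc] at h5
  have h6 : (((n + 1) ^ k : ℕ) : ℝ) * (c / W * (S.card : ℝ) ^ ((k : ℝ) - ε)) =
      c * (S.card : ℝ) ^ ((k : ℝ) - ε) := by
    push_cast
    rw [← hW]
    field_simp
  rw [h6] at h5
  have h7 := mul_le_mul_of_nonneg_left h2 hc.le
  linarith

end Pool.Agent.L5helper37.GC
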